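import Mathlib
import Pool.Agent.Lib.MP_405d56_lc.FinExt

/-! # Borel part of MP_405d56_lc: from the finite extension theorem to Borel graphs -/

set_option autoImplicit false
set_option linter.unusedSectionVars false

namespace MP405B

open Set

variable {X : Type} [MeasurableSpace X] [StandardBorelSpace X]



/-- the values of the neighbours of `x` under an injection into the reals -/
theorem P1_exists_enum (G : SimpleGraph X) (d : ℕ)
    (hd : ∀ x : X, (G.neighborSet x).encard = (d : ℕ∞)) (φ : X → ℝ)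
    (hφ : Function.Injective φ) (x : X) :
    ∃ y : Fin d → X, ((∀ i, G.Adj x (y i)) ∧ StrictMono (fun i => φ (y i))) ∧
      (∀ z, G.Adj x z → ∃ i, y i = z) ∧
      ∀ y' : Fin d → X, (∀ i, G.Adj x (y' i)) → StrictMono (fun i => φ (y' i)) → y' = y := by
  classical
  have hfin : (G.neighborSet x).Finite := by
    apply Set.finite_of_encard_eq_coe (hd x)
  let s : Finset ℝ := hfin.toFinset.image φ
  have hs : s.card = d := by
    show (hfin.toFinset.image φ).card = d
    rw [Finset.card_image_of_injective _ hφ]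
    have h1 := hd x
    rw [hfin.encard_eq_coe_toFinset_card] at h1
    exact_mod_cast h1
  have hmem : ∀ i : Fin d, ∃ z, G.Adj x z ∧ φ z = s.orderEmbOfFin hs i := by
    intro i
    have h1 := s.orderEmbOfFin_mem hs i
    obtain ⟨z, hz, hzi⟩ := Finset.mem_image.1 h1
    exact ⟨z, by simpa using hz, hzi⟩
  choose y hy1 hy2 using hmem
  refine ⟨y, ⟨hy1, ?_⟩, ?_, ?_⟩
  · intro i j hij
    show φ (y i) < φ (y j)
    rw [hy2, hy2]
    exact (s.orderEmbOfFin hs).strictMono hij
  · intro z hz
    have h1 : φ z ∈ (s : Set ℝ) := by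
      show φ z ∈ s
      exact Finset.mem_image_of_mem _ (by simpa using hz)
    rw [← Finset.range_orderEmbOfFin s hs] at h1
    obtain ⟨i, hi⟩ := h1
    exact ⟨i, hφ (by rw [hy2, hi])⟩
  · intro y' h1 h2
    have h3 := Finset.orderEmbOfFin_unique hs (f := fun i => φ (y' i))
      (fun i => Finset.mem_image_of_mem _ (by simpa using h1 i)) h2
    funext i
    apply hφ
    rw [hy2]
    exact congrFun h3 i

/-- Row P1: Borel neighbour functions. -/
theorem exists_nbr (G : SimpleGraph X) (d : ℕ) (hG : MeasurableSet {p : X × X | G.Adj p.1 p.2})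
    (hd : ∀ x : X, (G.neighborSet x).encard = (d : ℕ∞)) :
    ∃ n : Fin d → X → X, (∀ i, Measurable (n i)) ∧ ∀ x y, G.Adj x y ↔ ∃ i, n i x = y := by
  classical
  let φ : X → ℝ := MeasureTheory.embeddingReal X
  have hφ : MeasurableEmbedding φ := MeasureTheory.measurableEmbedding_embeddingReal X
  choose y hy1 hy2 hy3 using P1_exists_enum G d hd φ hφ.injective
  let D : Set (X × (Fin d → X)) := {p | (∀ i, G.Adj p.1 (p.2 i)) ∧
    StrictMono (fun i => φ (p.2 i))}
  have hD : MeasurableSet D := by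
    have h1 : D = (⋂ i : Fin d, {p : X × (Fin d → X) | G.Adj p.1 (p.2 i)}) ∩
        ⋂ i : Fin d, ⋂ j : Fin d, ⋂ _ : i < j,
          {p : X × (Fin d → X) | φ (p.2 i) < φ (p.2 j)} := by
      ext p
      simp only [Set.mem_inter_iff, Set.mem_iInter, Set.mem_ofPred_eq, D]
      constructor
      · rintro ⟨h1, h2⟩
        exact ⟨h1, fun i j hij => h2 hij⟩
      · rintro ⟨h1, h2⟩
        exact ⟨h1, fun i j hij => h2 i j hij⟩
    rw [h1]
    refine MeasurableSet.inter (MeasurableSet.iInter fun i => ?_)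
      (MeasurableSet.iInter fun i => MeasurableSet.iInter fun j => MeasurableSet.iInter fun _ => ?_)
    · have h2 : Measurable fun p : X × (Fin d → X) => (p.1, p.2 i) :=
        measurable_fst.prodMk ((measurable_pi_apply i).comp measurable_snd)
      exact h2 hG
    · exact measurableSet_lt (hφ.measurable.comp ((measurable_pi_apply i).comp measurable_snd))
        (hφ.measurable.comp ((measurable_pi_apply j).comp measurable_snd))
  have hinj : ∀ p ∈ D, p.2 = y p.1 := fun p hp => hy3 p.1 p.2 hp.1 hp.2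
  have hmeas : Measurable y := by
    intro B hB
    have h1 : y ⁻¹' B = Prod.fst '' (D ∩ Prod.snd ⁻¹' B) := by
      ext x
      constructor
      · intro hx
        exact ⟨(x, y x), ⟨hy1 x, hx⟩, rfl⟩
      · rintro ⟨⟨x', z⟩, ⟨h1, h2⟩, rfl⟩
        have h3 := hinj _ h1
        show y x' ∈ B
        rw [← h3]
        exact h2
    rw [h1]
    refine (hD.inter (measurable_snd hB)).image_of_measurable_injOn measurable_fst ?_
    rintro ⟨a, b⟩ ⟨ha, -⟩ ⟨a', b'⟩ ⟨ha', -⟩ (hab : a = a')
    have h2 := hinj _ ha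
    have h3 := hinj _ ha'
    subst hab
    have h4 : b = b' := h2.trans h3.symm
    rw [h4]
  refine ⟨fun i x => y x i, fun i => (measurable_pi_apply i).comp hmeas, fun x z => ?_⟩
  constructor
  · exact hy2 x z
  · rintro ⟨i, rfl⟩
    exact (hy1 x).1 i



/-- the endpoint of the walk given by a word -/
def P2ev {Y : Type} {d : ℕ} (n : Fin d → Y → Y) : List (Fin d) → Y → Y
  | [], x => x
  | i :: w, x => P2ev n w (n i x)

theorem P2ev_measurable {d : ℕ} {n : Fin d → X → X} (hn : ∀ i, Measurable (n i)) :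
    ∀ w : List (Fin d), Measurable (P2ev n w)
  | [] => measurable_id
  | i :: w => (P2ev_measurable hn w).comp (hn i)

theorem P2ev_walk {Y : Type} {d : ℕ} {n : Fin d → Y → Y} (G : SimpleGraph Y)
    (h : ∀ x y, G.Adj x y ↔ ∃ i, n i x = y) :
    ∀ (w : List (Fin d)) (x : Y), ∃ p : G.Walk x (P2ev n w x), p.length = w.length
  | [], x => ⟨SimpleGraph.Walk.nil, rfl⟩
  | i :: w, x => by
    obtain ⟨p, hp⟩ := P2ev_walk G h w (n i x)
    exact ⟨SimpleGraph.Walk.cons ((h x (n i x)).mpr ⟨i, rfl⟩) p, congrArg (· + 1) hp⟩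

theorem P2ev_of_walk {Y : Type} {d : ℕ} {n : Fin d → Y → Y} (G : SimpleGraph Y)
    (h : ∀ x y, G.Adj x y ↔ ∃ i, n i x = y) {x y : Y} (p : G.Walk x y) :
    ∃ w : List (Fin d), w.length = p.length ∧ P2ev n w x = y := by
  induction p with
  | nil => exact ⟨[], rfl, rfl⟩
  | cons ha p ih =>
    obtain ⟨w, hw, hw2⟩ := ih
    obtain ⟨i, hi⟩ := (h _ _).mp ha
    refine ⟨i :: w, by rw [List.length_cons, hw, SimpleGraph.Walk.length_cons], ?_⟩
    show P2ev n w (n i _) = _
    rw [hi, hw2]

theorem exists_gen (G : SimpleGraph X) (d : ℕ) (hG : MeasurableSet {p : X × X | G.Adj p.1 p.2})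
    (hd : ∀ x : X, (G.neighborSet x).encard = (d : ℕ∞)) :
    ∃ g : ℕ → X → X, (∀ k, Measurable (g k)) ∧ (∀ x y, G.Reachable x y ↔ ∃ k, g k x = y) ∧
      ∀ m, MeasurableSet {p : X × X | wd G m p.1 p.2} := by
  obtain ⟨n, hn, hadj⟩ := exists_nbr G d hG hd
  obtain ⟨f, hf⟩ := exists_surjective_nat (List (Fin d))
  refine ⟨fun k => P2ev n (f k), fun k => P2ev_measurable hn _, fun x y => ⟨?_, ?_⟩, fun m => ?_⟩
  · rintro ⟨p⟩
    obtain ⟨w, -, hw⟩ := P2ev_of_walk G hadj p
    obtain ⟨k, hk⟩ := hf w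
    refine ⟨k, ?_⟩
    show P2ev n (f k) x = y
    rw [hk]
    exact hw
  · rintro ⟨k, rfl⟩
    obtain ⟨p, -⟩ := P2ev_walk G hadj (f k) x
    exact ⟨p⟩
  · have e : {p : X × X | wd G m p.1 p.2} =
        ⋃ w : List (Fin d), ⋃ _ : w.length ≤ m, {p : X × X | P2ev n w p.1 = p.2} := by
      ext ⟨x, y⟩
      simp only [mem_ofPred_eq, mem_iUnion, exists_prop]
      constructor
      · rintro ⟨p, hp⟩
        obtain ⟨w, hw, hw2⟩ := P2ev_of_walk G hadj p
        exact ⟨w, by omega, hw2⟩
      · rintro ⟨w, hw, rfl⟩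
        obtain ⟨p, hp⟩ := P2ev_walk G hadj w x
        exact ⟨p, by omega⟩
    rw [e]
    refine MeasurableSet.iUnion fun w => MeasurableSet.iUnion fun _ => ?_
    exact measurableSet_eq_fun ((P2ev_measurable hn w).comp measurable_fst) measurable_snd

/-- Row P2: finite balls -/
theorem finite_ball (G : SimpleGraph X) (d : ℕ)
    (hd : ∀ x : X, (G.neighborSet x).encard = (d : ℕ∞)) (m : ℕ) (x : X) :
    {y | wd G m x y}.Finite := by
  induction m generalizing x with
  | zero =>
    refine (finite_singleton x).subset ?_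
    rintro y ⟨p, hp⟩
    exact (SimpleGraph.Walk.eq_of_length_eq_zero (by omega : p.length = 0)).symm
  | succ m ih =>
    have hN : (G.neighborSet x).Finite := finite_of_encard_eq_coe (hd x)
    refine ((finite_singleton x).union (hN.biUnion fun z _ => ih z)).subset ?_
    rintro y ⟨p, hp⟩
    cases p with
    | nil => exact Or.inl rfl
    | cons h p =>
      right
      rw [mem_iUnion₂]
      refine ⟨_, h, p, ?_⟩
      rw [SimpleGraph.Walk.length_cons] at hp
      omega

/-- the relation `same component of G^{≤ r} | U` of the frozen statement -/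
def Rel (G : SimpleGraph X) (r : ℕ) (U : Set X) (x y : X) : Prop :=
  (SimpleGraph.fromRel (fun a b : X => a ∈ U ∧ b ∈ U ∧ ∃ p : G.Walk a b, p.length ≤ r)).Reachable x y

theorem Rel.reachable {G : SimpleGraph X} {r : ℕ} {U : Set X} {x y : X} (h : Rel G r U x y) :
    G.Reachable x y := by
  unfold Rel at h
  rw [SimpleGraph.reachable_iff_reflTransGen] at h
  induction h with
  | refl => exact SimpleGraph.Reachable.refl _
  | tail _ hbc ih =>
    refine ih.trans ?_
    rw [SimpleGraph.fromRel_adj] at hbc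
    rcases hbc.2 with ⟨_, _, p, _⟩ | ⟨_, _, p, _⟩
    · exact ⟨p⟩
    · exact ⟨p.reverse⟩

/-- monotone in `r` and `U` -/
theorem Rel.mono {G : SimpleGraph X} {r r' : ℕ} {U U' : Set X} {x y : X} (h : Rel G r U x y)
    (hr : r ≤ r') (hU : U ⊆ U') : Rel G r' U' x y := by
  unfold Rel at h ⊢
  refine SimpleGraph.Reachable.mono ?_ h
  intro a b hab
  rw [SimpleGraph.fromRel_adj] at hab ⊢
  refine ⟨hab.1, ?_⟩
  rcases hab.2 with ⟨h1, h2, p, hp⟩ | ⟨h1, h2, p, hp⟩
  · exact Or.inl ⟨hU h1, hU h2, p, hp.trans hr⟩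
  · exact Or.inr ⟨hU h1, hU h2, p, hp.trans hr⟩

/-- the `n`-step relation -/
def RelN (G : SimpleGraph X) (g : ℕ → X → X) (r : ℕ) (U : Set X) : ℕ → X → X → Prop
  | 0 => fun x y => x = y
  | n + 1 => fun x y => ∃ k, RelN G g r U n x (g k x) ∧
      (SimpleGraph.fromRel (fun a b : X => a ∈ U ∧ b ∈ U ∧ wd G r a b)).Adj (g k x) y

theorem measurableSet_diag' : MeasurableSet {p : X × X | p.1 = p.2} :=
  measurableSet_eq_fun measurable_fst measurable_snd

/-- Row P3: `Rel` is Borel. Proof: with `H = fromRel ..`: `H.Adj` is a measurable relation, `H.Adj a b → G.Reachable a b`. `R 0 = (=)`,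
`R (n+1) x y ↔ ∃ k, R n x (g k x) ∧ H.Adj (g k x) y`, and `Rel x y ↔ ∃ n, R n x y`. -/
theorem measurable_Rel (G : SimpleGraph X) (g : ℕ → X → X) (hg : ∀ k, Measurable (g k))
    (hr : ∀ x y, G.Reachable x y ↔ ∃ k, g k x = y)
    (hm : ∀ m, MeasurableSet {p : X × X | wd G m p.1 p.2}) (r : ℕ) {U : Set X}
    (hU : MeasurableSet U) : MeasurableSet {p : X × X | Rel G r U p.1 p.2} := by
  have hH : MeasurableSet {p : X × X |
      (SimpleGraph.fromRel (fun a b : X => a ∈ U ∧ b ∈ U ∧ wd G r a b)).Adj p.1 p.2} := by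
    have e : {p : X × X |
        (SimpleGraph.fromRel (fun a b : X => a ∈ U ∧ b ∈ U ∧ wd G r a b)).Adj p.1 p.2} =
        {p : X × X | p.1 = p.2}ᶜ ∩
          ((Prod.fst ⁻¹' U ∩ Prod.snd ⁻¹' U ∩ {p : X × X | wd G r p.1 p.2}) ∪
           (Prod.snd ⁻¹' U ∩ Prod.fst ⁻¹' U ∩ Prod.swap ⁻¹' {p : X × X | wd G r p.1 p.2})) := by
      ext ⟨a, b⟩
      simp only [mem_ofPred_eq, SimpleGraph.fromRel_adj, mem_inter_iff, mem_compl_iff, mem_union,
        mem_preimage, Prod.swap_prod_mk, ne_eq, and_assoc]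
    rw [e]
    refine measurableSet_diag'.compl.inter (MeasurableSet.union ?_ ?_)
    · exact ((measurable_fst hU).inter (measurable_snd hU)).inter (hm r)
    · exact ((measurable_snd hU).inter (measurable_fst hU)).inter (measurable_swap (hm r))
  have hR : ∀ n, MeasurableSet {p : X × X | RelN G g r U n p.1 p.2} := by
    intro n
    induction n with
    | zero => exact measurableSet_diag'
    | succ n ih =>
      have e : {p : X × X | RelN G g r U (n + 1) p.1 p.2} =
          ⋃ k, ((fun p : X × X => (p.1, g k p.1)) ⁻¹' {p : X × X | RelN G g r U n p.1 p.2}) ∩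
            ((fun p : X × X => (g k p.1, p.2)) ⁻¹' {p : X × X |
              (SimpleGraph.fromRel (fun a b : X => a ∈ U ∧ b ∈ U ∧ wd G r a b)).Adj p.1 p.2}) := by
        ext ⟨a, b⟩
        simp only [mem_ofPred_eq, mem_iUnion, mem_inter_iff, mem_preimage, RelN]
      rw [e]
      refine MeasurableSet.iUnion fun k => ?_
      refine MeasurableSet.inter ?_ ?_
      · exact (measurable_fst.prodMk ((hg k).comp measurable_fst)) ih
      · exact (((hg k).comp measurable_fst).prodMk measurable_snd) hH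
  have key : ∀ x y, Rel G r U x y ↔ ∃ n, RelN G g r U n x y := by
    intro x y
    constructor
    · intro h
      have h' := h
      unfold Rel at h'
      rw [SimpleGraph.reachable_iff_reflTransGen] at h'
      clear h
      induction h' with
      | refl => exact ⟨0, rfl⟩
      | @tail b c hab hbc ih =>
        obtain ⟨n, hn⟩ := ih
        have h1 : Rel G r U x b := by
          unfold Rel
          rw [SimpleGraph.reachable_iff_reflTransGen]
          exact hab
        obtain ⟨k, hk⟩ := (hr x b).1 h1.reachable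
        refine ⟨n + 1, k, ?_, ?_⟩
        · rw [hk]; exact hn
        · rw [hk]; exact hbc
    · rintro ⟨n, hn⟩
      induction n generalizing y with
      | zero =>
        have : x = y := hn
        subst this
        exact SimpleGraph.Reachable.refl _
      | succ n ih =>
        obtain ⟨k, h1, h2⟩ := hn
        have h3 : Rel G r U x (g k x) := ih _ h1
        unfold Rel at h3 ⊢
        exact h3.trans (SimpleGraph.Adj.reachable h2)
  have e : {p : X × X | Rel G r U p.1 p.2} = ⋃ n, {p : X × X | RelN G g r U n p.1 p.2} := by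
    ext ⟨a, b⟩
    simp only [mem_ofPred_eq, mem_iUnion, key]
  rw [e]
  exact MeasurableSet.iUnion hR

/-- Row P4: measurable choice of the first index -/
theorem exists_first {Y : Type} [MeasurableSpace Y] (P : Y → ℕ → Prop)
    (hP : ∀ k, MeasurableSet {y | P y k}) :
    ∃ f : Y → ℕ, Measurable f ∧ ∀ y, (∃ k, P y k) → P y (f y) := by
  classical
  have hQ : ∀ y, ∃ k, P y k ∨ ∀ j, ¬ P y j := by
    intro y
    by_cases h : ∃ k, P y k
    · obtain ⟨k, hk⟩ := h
      exact ⟨k, Or.inl hk⟩
    · push Not at h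
      exact ⟨0, Or.inr h⟩
  refine ⟨fun y => Nat.find (hQ y), measurable_find hQ ?_, ?_⟩
  · intro k
    have : {y | P y k ∨ ∀ j, ¬ P y j} = {y | P y k} ∪ ⋂ j, {y | P y j}ᶜ := by
      ext y
      simp
    rw [this]
    exact (hP k).union (MeasurableSet.iInter fun j => (hP j).compl)
  · intro y hy
    rcases Nat.find_spec (hQ y) with h | h
    · exact h
    · obtain ⟨k, hk⟩ := hy
      exact absurd hk (h k)

/-- Row P4: a Borel choice of one point in every class of a Borel equivalence relation with finite classes (generated by `g`) -/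
theorem exists_base (E : X → X → Prop) (hE : Equivalence E)
    (hm : MeasurableSet {p : X × X | E p.1 p.2}) (hf : ∀ x, {y | E x y}.Finite)
    (g : ℕ → X → X) (hg : ∀ k, Measurable (g k)) (hr : ∀ x y, E x y → ∃ k, g k x = y) :
    ∃ b : X → X, Measurable b ∧ (∀ x, E x (b x)) ∧ ∀ x y, E x y → b x = b y := by
  obtain ⟨φ, hφ⟩ := MeasureTheory.exists_measurableEmbedding_real X
  have hEk : ∀ k, MeasurableSet {x | E x (g k x)} := fun k =>
    (measurable_id.prodMk (hg k)) hm
  obtain ⟨f, hf', hfP⟩ := exists_first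
    (fun x k => E x (g k x) ∧ ∀ j, E x (g j x) → φ (g k x) ≤ φ (g j x)) (by
      intro k
      have : {x | E x (g k x) ∧ ∀ j, E x (g j x) → φ (g k x) ≤ φ (g j x)} =
          {x | E x (g k x)} ∩ ⋂ j, ({x | E x (g j x)}ᶜ ∪ {x | φ (g k x) ≤ φ (g j x)}) := by
        ext x
        simp only [mem_ofPred_eq, mem_inter_iff, mem_iInter, mem_union, mem_compl_iff]
        constructor
        · rintro ⟨h1, h2⟩
          refine ⟨h1, fun j => ?_⟩
          by_cases h : E x (g j x)
          · exact Or.inr (h2 j h)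
          · exact Or.inl h
        · rintro ⟨h1, h2⟩
          refine ⟨h1, fun j hj => ?_⟩
          rcases h2 j with h | h
          · exact absurd hj h
          · exact h
      rw [this]
      refine (hEk k).inter (MeasurableSet.iInter fun j => ((hEk j).compl).union ?_)
      exact measurableSet_le (hφ.measurable.comp (hg k)) (hφ.measurable.comp (hg j)))
  have hex : ∀ x, ∃ k, E x (g k x) ∧ ∀ j, E x (g j x) → φ (g k x) ≤ φ (g j x) := by
    intro x
    obtain ⟨y, hy, hmin⟩ := Set.exists_min_image {y | E x y} φ (hf x) ⟨x, hE.refl x⟩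
    obtain ⟨k, hk⟩ := hr x y hy
    refine ⟨k, by rw [hk]; exact hy, fun j hj => ?_⟩
    rw [hk]
    exact hmin _ hj
  have hb : ∀ x, E x (g (f x) x) ∧ ∀ j, E x (g j x) → φ (g (f x) x) ≤ φ (g j x) :=
    fun x => hfP x (hex x)
  refine ⟨fun x => g (f x) x, ?_, fun x => (hb x).1, ?_⟩
  · intro B hB
    have : (fun x => g (f x) x) ⁻¹' B = ⋃ k, ({x | f x = k} ∩ (g k) ⁻¹' B) := by
      ext x
      simp only [mem_preimage, mem_iUnion, mem_inter_iff, mem_ofPred_eq]
      constructor
      · intro h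
        exact ⟨f x, rfl, h⟩
      · rintro ⟨k, h1, h2⟩
        rw [h1]
        exact h2
    rw [this]
    exact MeasurableSet.iUnion fun k => (hf' (measurableSet_singleton k)).inter (hg k hB)
  · intro x y hxy
    have h1 : E x (g (f y) y) := hE.trans hxy (hb y).1
    have h2 : E y (g (f x) x) := hE.trans (hE.symm hxy) (hb x).1
    obtain ⟨j, hj⟩ := hr x _ h1
    obtain ⟨i, hi⟩ := hr y _ h2
    have h3 : φ (g (f x) x) ≤ φ (g (f y) y) := by
      rw [← hj]
      exact (hb x).2 j (by rw [hj]; exact h1)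
    have h4 : φ (g (f y) y) ≤ φ (g (f x) x) := by
      rw [← hi]
      exact (hb y).2 i (by rw [hi]; exact h2)
    exact hφ.injective (le_antisymm h3 h4)



section P5

variable (g : ℕ → X → X)

open Classical in
/-- the least index of `y` in the list `g 0 z, g 1 z, …` (or `0`) -/
noncomputable def P5_idx (z y : X) : ℕ := if h : ∃ k, g k z = y then Nat.find h else 0

theorem P5_idx_eq {z y : X} {k : ℕ} (hk : g k z = y) (hj : ∀ j < k, g j z ≠ y) :
    P5_idx g z y = k := by
  classical
  have h : ∃ k, g k z = y := ⟨k, hk⟩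
  unfold P5_idx
  rw [dif_pos h]
  apply le_antisymm
  · exact Nat.find_min' h hk
  · by_contra hlt
    exact hj _ (not_le.1 hlt) (Nat.find_spec h)

theorem P5_idx_spec {z y : X} (h : ∃ k, g k z = y) :
    g (P5_idx g z y) z = y ∧ ∀ j < P5_idx g z y, g j z ≠ y := by
  classical
  unfold P5_idx
  rw [dif_pos h]
  exact ⟨Nat.find_spec h, fun j hj => Nat.find_min h hj⟩

theorem P5_idx_neg {z y : X} (h : ¬ ∃ k, g k z = y) : P5_idx g z y = 0 := by
  classical
  unfold P5_idx
  rw [dif_neg h]

theorem P5_meas_idx (hg : ∀ k, Measurable (g k)) :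
    Measurable fun p : X × X => P5_idx g p.1 p.2 := by
  apply measurable_to_countable'
  intro n
  have heq : ∀ k, MeasurableSet {p : X × X | g k p.1 = p.2} := fun k =>
    measurableSet_eq_fun ((hg k).comp measurable_fst) measurable_snd
  have h1 : (fun p : X × X => P5_idx g p.1 p.2) ⁻¹' {n} =
      ({p : X × X | g n p.1 = p.2} ∩ ⋂ j : {j // j < n}, {p : X × X | g j p.1 = p.2}ᶜ) ∪
        ({_p : X × X | n = 0} ∩ ⋂ k, {p : X × X | g k p.1 = p.2}ᶜ) := by
    ext ⟨z, y⟩
    constructor
    · intro h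
      have h' : P5_idx g z y = n := h
      by_cases hex : ∃ k, g k z = y
      · obtain ⟨h2, h3⟩ := P5_idx_spec g hex
        rw [h'] at h2 h3
        exact Or.inl ⟨h2, mem_iInter.2 fun j => h3 j.1 j.2⟩
      · right
        refine ⟨?_, mem_iInter.2 fun k hk => hex ⟨k, hk⟩⟩
        exact h'.symm.trans (P5_idx_neg g hex)
    · rintro (⟨h2, h3⟩ | ⟨h2, h3⟩)
      · exact P5_idx_eq g h2 fun j hj => mem_iInter.1 h3 ⟨j, hj⟩
      · have hex : ¬ ∃ k, g k z = y := by
          rintro ⟨k, hk⟩
          exact mem_iInter.1 h3 k hk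
        have h2' : n = 0 := h2
        show P5_idx g z y = n
        rw [P5_idx_neg g hex, h2']
  rw [h1]
  refine MeasurableSet.union (MeasurableSet.inter (heq n) (MeasurableSet.iInter fun j => ?_))
    (MeasurableSet.inter (MeasurableSet.const _) (MeasurableSet.iInter fun k => (heq k).compl))
  exact (heq j.1).compl

variable (S : X → X → Prop)

/-- the indices of the points of `S z` -/
def P5_W (z : X) : Set ℕ := {k | S z (g k z) ∧ ∀ j < k, g j z ≠ g k z}

theorem P5_W_fin (hSf : ∀ z, {y | S z y}.Finite) (z : X) : (P5_W g S z).Finite := by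
  refine Set.Finite.of_injOn (f := fun k => g k z) (t := {y | S z y}) ?_ ?_ (hSf z)
  · intro k hk
    exact hk.1
  · intro j hj k hk hjk
    rcases lt_trichotomy j k with h | h | h
    · exact absurd hjk (hk.2 j h)
    · exact h
    · exact absurd hjk.symm (hj.2 k h)

theorem P5_meas_W (hg : ∀ k, Measurable (g k)) (hS : MeasurableSet {p : X × X | S p.1 p.2})
    (k : ℕ) : MeasurableSet {z | k ∈ P5_W g S z} := by
  have h1 : {z | k ∈ P5_W g S z} =
      {z | S z (g k z)} ∩ ⋂ j : {j // j < k}, {z | g j z = g k z}ᶜ := by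
    ext z
    constructor
    · rintro ⟨h2, h3⟩
      exact ⟨h2, mem_iInter.2 fun j => h3 j.1 j.2⟩
    · rintro ⟨h2, h3⟩
      exact ⟨h2, fun j hj => mem_iInter.1 h3 ⟨j, hj⟩⟩
  rw [h1]
  refine MeasurableSet.inter ?_ (MeasurableSet.iInter fun j =>
    (measurableSet_eq_fun (hg j) (hg k)).compl)
  exact hS.preimage (measurable_id.prodMk (hg k))

theorem P5_idx_mem {z y : X} (hy : S z y) (h : ∃ k, g k z = y) : P5_idx g z y ∈ P5_W g S z := by
  obtain ⟨h1, h2⟩ := P5_idx_spec g h
  refine ⟨by rw [h1]; exact hy, fun j hj => ?_⟩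
  rw [h1]
  exact h2 j hj

theorem P5_idx_g {z : X} {k : ℕ} (hk : k ∈ P5_W g S z) : P5_idx g z (g k z) = k :=
  P5_idx_eq g rfl hk.2

variable {L : Type} (lab : X → X → X → L)

/-- the type of `z`: the labelled structure on the indices -/
def P5_T (z : X) : Set (ℕ × ℕ × L) :=
  {t | t.1 ∈ P5_W g S z ∧ t.2.1 ∈ P5_W g S z ∧ lab z (g t.1 z) (g t.2.1 z) = t.2.2}

theorem P5_T_fin (hSf : ∀ z, {y | S z y}.Finite) (z : X) : (P5_T g S lab z).Finite := by
  have hf := P5_W_fin g S hSf z
  refine ((hf.prod hf).image fun q => (q.1, q.2, lab z (g q.1 z) (g q.2 z))).subset ?_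
  rintro ⟨j, k, l⟩ ⟨h1, h2, h3⟩
  refine ⟨(j, k), ⟨h1, h2⟩, ?_⟩
  simp only at h3 ⊢
  rw [h3]

theorem P5_meas_T (hg : ∀ k, Measurable (g k)) (hS : MeasurableSet {p : X × X | S p.1 p.2})
    [Countable L] (hlab : ∀ l, MeasurableSet {p : X × X × X | lab p.1 p.2.1 p.2.2 = l})
    (t : Set (ℕ × ℕ × L)) : MeasurableSet {z | P5_T g S lab z = t} := by
  have h0 : ∀ q : ℕ × ℕ × L, MeasurableSet {z | q ∈ P5_T g S lab z} := by
    rintro ⟨j, k, l⟩
    have h1 : {z | ((j, k, l) : ℕ × ℕ × L) ∈ P5_T g S lab z} =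
        {z | j ∈ P5_W g S z} ∩ ({z | k ∈ P5_W g S z} ∩ {z | lab z (g j z) (g k z) = l}) := rfl
    rw [h1]
    refine (P5_meas_W g S hg hS j).inter ((P5_meas_W g S hg hS k).inter ?_)
    exact (hlab l).preimage (measurable_id.prodMk ((hg j).prodMk (hg k)))
  have h1 : {z | P5_T g S lab z = t} = ⋂ q : ℕ × ℕ × L, {z | q ∈ P5_T g S lab z ↔ q ∈ t} := by
    ext z
    constructor
    · intro h
      refine mem_iInter.2 fun q => ?_
      have h' : P5_T g S lab z = t := h
      show q ∈ P5_T g S lab z ↔ q ∈ t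
      rw [h']
    · intro h
      ext q
      exact mem_iInter.1 h q
  rw [h1]
  refine MeasurableSet.iInter fun q => ?_
  by_cases hq : q ∈ t
  · have h2 : {z | q ∈ P5_T g S lab z ↔ q ∈ t} = {z | q ∈ P5_T g S lab z} := by
      ext z
      exact iff_true_right hq
    rw [h2]
    exact h0 q
  · have h2 : {z | q ∈ P5_T g S lab z ↔ q ∈ t} = {z | q ∈ P5_T g S lab z}ᶜ := by
      ext z
      exact iff_false_right hq
    rw [h2]
    exact (h0 q).compl

theorem P5_W_of_T {z z' : X} (h : P5_T g S lab z = P5_T g S lab z') :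
    P5_W g S z = P5_W g S z' := by
  ext k
  constructor
  · intro hk
    have h1 : ((k, k, lab z (g k z) (g k z)) : ℕ × ℕ × L) ∈ P5_T g S lab z := ⟨hk, hk, rfl⟩
    rw [h] at h1
    exact h1.1
  · intro hk
    have h1 : ((k, k, lab z' (g k z') (g k z')) : ℕ × ℕ × L) ∈ P5_T g S lab z' := ⟨hk, hk, rfl⟩
    rw [← h] at h1
    exact h1.1

theorem P5_lab_of_T {z z' : X} (h : P5_T g S lab z = P5_T g S lab z') {j k : ℕ}
    (hj : j ∈ P5_W g S z) (hk : k ∈ P5_W g S z) :
    lab z (g j z) (g k z) = lab z' (g j z') (g k z') := by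
  have h1 : ((j, k, lab z (g j z) (g k z)) : ℕ × ℕ × L) ∈ P5_T g S lab z := ⟨hj, hk, rfl⟩
  rw [h] at h1
  exact h1.2.2.symm

/-- the bijection between two structures of the same type -/
noncomputable def P5_e (hSg : ∀ z y, S z y → ∃ k, g k z = y) {z z' : X}
    (h : P5_W g S z = P5_W g S z') : {y // S z y} ≃ {y // S z' y} where
  toFun y := ⟨g (P5_idx g z y.1) z', by
    have h1 := P5_idx_mem g S y.2 (hSg z y.1 y.2)
    rw [h] at h1
    exact h1.1⟩
  invFun y := ⟨g (P5_idx g z' y.1) z, by
    have h1 := P5_idx_mem g S y.2 (hSg z' y.1 y.2)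
    rw [← h] at h1
    exact h1.1⟩
  left_inv y := by
    apply Subtype.ext
    show g (P5_idx g z' (g (P5_idx g z y.1) z')) z = y.1
    have h1 := P5_idx_mem g S y.2 (hSg z y.1 y.2)
    rw [h] at h1
    rw [P5_idx_g g S h1]
    exact (P5_idx_spec g (hSg z y.1 y.2)).1
  right_inv y := by
    apply Subtype.ext
    show g (P5_idx g z (g (P5_idx g z' y.1) z)) z' = y.1
    have h1 := P5_idx_mem g S y.2 (hSg z' y.1 y.2)
    rw [← h] at h1
    rw [P5_idx_g g S h1]
    exact (P5_idx_spec g (hSg z' y.1 y.2)).1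

end P5

/-- Row P5: measurable selection of finite structures. `S z` finite set of points (generated from `z` by `g`), `lab z x y` labels in a countable
type. `Sol` is invariant under isomorphisms and always solvable. Then there is a measurable solution. -/
theorem exists_sel (g : ℕ → X → X) (hg : ∀ k, Measurable (g k)) (S : X → X → Prop)
    (hS : MeasurableSet {p : X × X | S p.1 p.2}) (hSf : ∀ z, {y | S z y}.Finite)
    (hSg : ∀ z y, S z y → ∃ k, g k z = y) {L : Type} [Countable L] (lab : X → X → X → L)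
    (hlab : ∀ l, MeasurableSet {p : X × X × X | lab p.1 p.2.1 p.2.2 = l})
    (Sol : ∀ (V : Type) [Finite V], (V → V → L) → (V → V → ℕ) → Prop)
    (hiso : ∀ (V W : Type) [Finite V] [Finite W] (e : V ≃ W) (l : W → W → L) (c : W → W → ℕ),
      Sol W l c → Sol V (fun x y => l (e x) (e y)) (fun x y => c (e x) (e y)))
    (hsol : ∀ z, haveI : Finite {y // S z y} := (hSf z).to_subtype
      ∃ c, Sol {y // S z y} (fun x y => lab z x.1 y.1) c) :
    ∃ c : X → X → X → ℕ, (Measurable fun p : X × X × X => c p.1 p.2.1 p.2.2) ∧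
      ∀ z, haveI : Finite {y // S z y} := (hSf z).to_subtype
        Sol {y // S z y} (fun x y => lab z x.1 y.1) (fun x y => c z x.1 y.1) := by
  classical
  -- solutions at the representatives
  choose c₀ hc₀ using hsol
  -- the type as a finset
  let T : X → Finset (ℕ × ℕ × L) := fun z => (P5_T_fin g S lab hSf z).toFinset
  have hT : ∀ {z z' : X}, T z = T z' → P5_T g S lab z = P5_T g S lab z' := by
    intro z z' h
    have h1 := congrArg (fun s : Finset (ℕ × ℕ × L) => (s : Set (ℕ × ℕ × L))) h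
    simpa only [T, Set.Finite.coe_toFinset] using h1
  have hTm : ∀ t, MeasurableSet {z | T z = t} := by
    intro t
    have h1 : {z | T z = t} = {z | P5_T g S lab z = (t : Set (ℕ × ℕ × L))} := by
      ext z
      constructor
      · intro h
        have h' : T z = t := h
        show P5_T g S lab z = (t : Set (ℕ × ℕ × L))
        rw [← h', Set.Finite.coe_toFinset]
      · intro h
        have h' : P5_T g S lab z = (t : Set (ℕ × ℕ × L)) := h
        show T z = t
        apply Finset.coe_injective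
        rw [← h', Set.Finite.coe_toFinset]
    rw [h1]
    exact P5_meas_T g S lab hg hS hlab _
  -- the solution of the type
  let χ : Finset (ℕ × ℕ × L) → ℕ → ℕ → ℕ := fun t a b =>
    if h : ∃ z, T z = t then
      if h2 : S h.choose (g a h.choose) ∧ S h.choose (g b h.choose) then
        c₀ h.choose ⟨g a h.choose, h2.1⟩ ⟨g b h.choose, h2.2⟩
      else 0
    else 0
  refine ⟨fun z x y => χ (T z) (P5_idx g z x) (P5_idx g z y), ?_, ?_⟩
  · apply measurable_to_countable'
    intro n
    have h1 : (fun p : X × X × X => χ (T p.1) (P5_idx g p.1 p.2.1) (P5_idx g p.1 p.2.2)) ⁻¹' {n} =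
        ⋃ q : {q : Finset (ℕ × ℕ × L) × ℕ × ℕ // χ q.1 q.2.1 q.2.2 = n},
          ({p : X × X × X | T p.1 = q.1.1} ∩ ({p : X × X × X | P5_idx g p.1 p.2.1 = q.1.2.1} ∩
            {p : X × X × X | P5_idx g p.1 p.2.2 = q.1.2.2})) := by
      ext p
      constructor
      · intro h
        exact mem_iUnion.2 ⟨⟨(T p.1, P5_idx g p.1 p.2.1, P5_idx g p.1 p.2.2), h⟩, rfl, rfl, rfl⟩
      · intro h
        obtain ⟨⟨⟨t, a, b⟩, hq⟩, h1, h2, h3⟩ := mem_iUnion.1 h
        have h1' : T p.1 = t := h1
        have h2' : P5_idx g p.1 p.2.1 = a := h2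
        have h3' : P5_idx g p.1 p.2.2 = b := h3
        show χ (T p.1) (P5_idx g p.1 p.2.1) (P5_idx g p.1 p.2.2) = n
        rw [h1', h2', h3']
        exact hq
    rw [h1]
    refine MeasurableSet.iUnion fun q => ?_
    have hidx := P5_meas_idx g hg
    refine ((hTm q.1.1).preimage measurable_fst).inter (MeasurableSet.inter ?_ ?_)
    · exact (hidx.comp (measurable_fst.prodMk (measurable_fst.comp measurable_snd)))
        (measurableSet_singleton q.1.2.1)
    · exact (hidx.comp (measurable_fst.prodMk (measurable_snd.comp measurable_snd)))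
        (measurableSet_singleton q.1.2.2)
  · intro z
    have : Finite {y // S z y} := (hSf z).to_subtype
    have hex : ∃ z', T z' = T z := ⟨z, rfl⟩
    have hzt : P5_T g S lab z = P5_T g S lab hex.choose := (hT hex.choose_spec).symm
    have hW := P5_W_of_T g S lab hzt
    have : Finite {y // S hex.choose y} := (hSf _).to_subtype
    have h1 := hiso _ _ (P5_e g S hSg hW) _ _ (hc₀ hex.choose)
    have h2 : (fun x y : {y // S z y} => lab z x.1 y.1) =
        fun x y => lab hex.choose (P5_e g S hSg hW x).1 (P5_e g S hSg hW y).1 := by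
      funext x y
      have h3 := P5_lab_of_T g S lab hzt (P5_idx_mem g S x.2 (hSg z x.1 x.2))
        (P5_idx_mem g S y.2 (hSg z y.1 y.2))
      rw [(P5_idx_spec g (hSg z x.1 x.2)).1, (P5_idx_spec g (hSg z y.1 y.2)).1] at h3
      exact h3
    have h4 : (fun x y : {y // S z y} => χ (T z) (P5_idx g z x.1) (P5_idx g z y.1)) =
        fun x y => c₀ hex.choose (P5_e g S hSg hW x) (P5_e g S hSg hW y) := by
      funext x y
      show (if h : ∃ z', T z' = T z then
        if h2 : S h.choose (g (P5_idx g z x.1) h.choose) ∧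
            S h.choose (g (P5_idx g z y.1) h.choose) then
          c₀ h.choose ⟨g (P5_idx g z x.1) h.choose, h2.1⟩ ⟨g (P5_idx g z y.1) h.choose, h2.2⟩
        else 0
      else 0) = _
      rw [dif_pos hex, dif_pos ⟨(P5_e g S hSg hW x).2, (P5_e g S hSg hW y).2⟩]
      rfl
    show Sol {y // S z y} (fun x y => lab z x.1 y.1)
      (fun x y => χ (T z) (P5_idx g z x.1) (P5_idx g z y.1))
    rw [h2, h4]
    exact h1

end MP405B
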