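import Mathlib
import Pool.Agent.Lib.MP_405d56_lc.B.Skel

/-! # Borel part of MP_405d56_lc, assembly (row P7) -/

set_option autoImplicit false
set_option linter.unusedSectionVars false

namespace MP405B

open Set

variable {X : Type} [MeasurableSpace X] [StandardBorelSpace X]

theorem wd_refl {V : Type} (G : SimpleGraph V) (m : ℕ) (x : V) : wd G m x x :=
  ⟨SimpleGraph.Walk.nil, by simp⟩

theorem wd_symm {V : Type} {G : SimpleGraph V} {m : ℕ} {x y : V} (h : wd G m x y) : wd G m y x := by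
  obtain ⟨p, hp⟩ := h
  exact ⟨p.reverse, by simpa using hp⟩

theorem wd_trans {V : Type} {G : SimpleGraph V} {m n : ℕ} {x y z : V} (h : wd G m x y)
    (h' : wd G n y z) : wd G (m + n) x z := by
  obtain ⟨p, hp⟩ := h
  obtain ⟨q, hq⟩ := h'
  exact ⟨p.append q, by rw [SimpleGraph.Walk.length_append]; omega⟩

theorem wd_mono {V : Type} {G : SimpleGraph V} {m n : ℕ} {x y : V} (h : wd G m x y)
    (hmn : m ≤ n) : wd G n x y := by
  obtain ⟨p, hp⟩ := h
  exact ⟨p, hp.trans hmn⟩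

theorem wd_adj {V : Type} {G : SimpleGraph V} {x y : V} (h : G.Adj x y) : wd G 1 x y :=
  ⟨h.toWalk, by simp⟩

theorem wd_hom {V W : Type} {G : SimpleGraph V} {H : SimpleGraph W} (f : G →g H) {m : ℕ} {x y : V}
    (h : wd G m x y) : wd H m (f x) (f y) := by
  obtain ⟨p, hp⟩ := h
  exact ⟨p.map f, by simpa using hp⟩

theorem wd_val {V : Type} {G : SimpleGraph V} {P : V → Prop} {m : ℕ} {x y : {v // P v}}
    (h : wd (G.comap (Subtype.val : {v // P v} → V)) m x y) : wd G m x.1 y.1 :=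
  wd_hom (⟨Subtype.val, fun h => h⟩ : G.comap (Subtype.val : {v // P v} → V) →g G) h

theorem wd_equiv {V W : Type} {H : SimpleGraph W} (e : V ≃ W) {m : ℕ} {x y : V} :
    wd (H.comap e) m x y ↔ wd H m (e x) (e y) := by
  constructor
  · intro h
    exact wd_hom (⟨e, fun h => h⟩ : H.comap e →g H) h
  · intro h
    have := wd_hom (⟨e.symm, fun {a b} h => by simpa using h⟩ : H →g H.comap e) h
    simpa using this

theorem Rel_equiv (G : SimpleGraph X) (r : ℕ) (U : Set X) : Equivalence (Rel G r U) :=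
  ⟨fun _ => SimpleGraph.Reachable.refl _, fun h => SimpleGraph.Reachable.symm h,
    fun h h' => SimpleGraph.Reachable.trans h h'⟩

theorem Rel_of {G : SimpleGraph X} {r : ℕ} {U : Set X} {x y : X} (hx : x ∈ U) (hy : y ∈ U)
    (h : wd G r x y) : Rel G r U x y := by
  by_cases hxy : x = y
  · subst hxy; exact SimpleGraph.Reachable.refl _
  · apply SimpleGraph.Adj.reachable
    rw [SimpleGraph.fromRel_adj]
    exact ⟨hxy, Or.inl ⟨hx, hy, h⟩⟩

theorem Rel_mem {G : SimpleGraph X} {r : ℕ} {U : Set X} {x y : X} (h : Rel G r U x y)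
    (hx : x ∈ U) : y ∈ U := by
  unfold Rel at h
  obtain ⟨p⟩ := h
  induction p with
  | nil => exact hx
  | cons hadj _ ih =>
    apply ih
    rw [SimpleGraph.fromRel_adj] at hadj
    rcases hadj.2 with h | h
    · exact h.2.1
    · exact h.1

theorem fromRel_comap {V W : Type} (l : W → W → Prop) (e : V ≃ W) :
    SimpleGraph.fromRel (fun x y => l (e x) (e y)) = (SimpleGraph.fromRel l).comap e := by
  ext x y
  simp [SimpleGraph.fromRel_adj]

theorem fromRel_val {V : Type} (G : SimpleGraph V) (P : V → Prop) :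
    SimpleGraph.fromRel (fun x y : {v // P v} => G.Adj x.1 y.1) = G.comap Subtype.val := by
  ext x y
  simp only [SimpleGraph.fromRel_adj, SimpleGraph.comap_adj]
  constructor
  · rintro ⟨_, h | h⟩
    · exact h
    · exact h.symm
  · intro h
    exact ⟨fun hxy => h.ne (congrArg Subtype.val hxy), Or.inl h⟩

theorem PropCol_equiv {V W : Type} {d : ℕ} {H : SimpleGraph W} {c : W → W → ℕ} (e : V ≃ W)
    (h : PropCol d H c) : PropCol d (H.comap e) (fun x y => c (e x) (e y)) := by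
  refine ⟨fun x y hxy => h.1 _ _ hxy, fun x y z hxy hxz hyz => h.2 _ _ _ hxy hxz ?_⟩
  exact fun hh => hyz (e.injective hh)

theorem ncard_val_le {V : Type} (G : SimpleGraph V) {d : ℕ}
    (hd : ∀ x : V, (G.neighborSet x).encard = (d : ℕ∞)) (P : V → Prop) (v : {v // P v}) :
    ((G.comap (Subtype.val : {v // P v} → V)).neighborSet v).ncard ≤ d := by
  have h1 : ((G.comap (Subtype.val : {v // P v} → V)).neighborSet v).ncard =
      (Subtype.val '' ((G.comap (Subtype.val : {v // P v} → V)).neighborSet v)).ncard :=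
    (Set.ncard_image_of_injective _ Subtype.val_injective).symm
  rw [h1]
  have hfin : (G.neighborSet v.1).Finite := by
    apply Set.finite_of_encard_eq_coe (hd v.1)
  have h2 : (Subtype.val '' ((G.comap (Subtype.val : {v // P v} → V)).neighborSet v)) ⊆
      G.neighborSet v.1 := by
    rintro _ ⟨w, hw, rfl⟩
    exact hw
  have h3 := Set.ncard_le_ncard h2 hfin
  have h4 : (G.neighborSet v.1).ncard = d := by
    rw [Set.ncard, hd v.1]; rfl
  omega

/-- the first choice: Good colourings on the components of `G[U]` -/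
theorem first_choice {d : ℕ} (F : FinExt d) (G : SimpleGraph X)
    (hG : MeasurableSet {p : X × X | G.Adj p.1 p.2})
    (hd : ∀ x : X, (G.neighborSet x).encard = (d : ℕ∞))
    (g : ℕ → X → X) (hg : ∀ k, Measurable (g k)) (hr : ∀ x y, G.Reachable x y ↔ ∃ k, g k x = y)
    (hm : ∀ m, MeasurableSet {p : X × X | wd G m p.1 p.2}) {U : Set X} (hU : MeasurableSet U)
    (hfin : ∀ x, {y | Rel G 1 U x y}.Finite) :
    ∃ c1 : X → X → ℕ, (Measurable fun p : X × X => c1 p.1 p.2) ∧
      ∀ z, haveI : Finite {y // Rel G 1 U z y} := (hfin z).to_subtype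
        F.Good {y // Rel G 1 U z y} (G.comap Subtype.val) (fun x y => c1 x.1 y.1) := by
  have hE := Rel_equiv G 1 U
  have hEm := measurable_Rel G g hg hr hm 1 hU
  have hEg : ∀ x y, Rel G 1 U x y → ∃ k, g k x = y := fun x y h => (hr x y).1 h.reachable
  obtain ⟨b, hb, hb1, hb2⟩ := exists_base (Rel G 1 U) hE hEm hfin g hg hEg
  obtain ⟨cc, hcc, hcc2⟩ := exists_sel g hg (Rel G 1 U) hEm hfin hEg (L := Prop)
    (fun _ x y => G.Adj x y)
    (by
      intro l
      by_cases hl : l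
      · have : {p : X × X × X | (G.Adj p.2.1 p.2.2) = l} =
            (fun p : X × X × X => p.2) ⁻¹' {p : X × X | G.Adj p.1 p.2} := by
          ext p; simp [hl]
        rw [this]
        exact measurable_snd hG
      · have : {p : X × X × X | (G.Adj p.2.1 p.2.2) = l} =
            (fun p : X × X × X => p.2) ⁻¹' {p : X × X | G.Adj p.1 p.2}ᶜ := by
          ext p; simp [hl]
        rw [this]
        exact measurable_snd hG.compl)
    (fun V _ l c => F.Good V (SimpleGraph.fromRel l) c)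
    (by
      intro V W _ _ e l c h
      rw [fromRel_comap]
      exact F.iso V W e _ c h)
    (by
      intro z
      have : Finite {y // Rel G 1 U z y} := (hfin z).to_subtype
      have := F.ex {y // Rel G 1 U z y} (G.comap Subtype.val) (fun v => ncard_val_le G hd _ v)
      obtain ⟨c, hc⟩ := this
      refine ⟨c, ?_⟩
      rw [fromRel_val]
      exact hc)
  refine ⟨fun x y => cc (b x) x y, ?_, ?_⟩
  · have : (fun p : X × X => cc (b p.1) p.1 p.2) =
        (fun p : X × X × X => cc p.1 p.2.1 p.2.2) ∘ (fun p : X × X => (b p.1, p.1, p.2)) := rfl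
    rw [this]
    exact hcc.comp ((hb.comp measurable_fst).prodMk (measurable_fst.prodMk measurable_snd))
  · intro z
    have : Finite {y // Rel G 1 U z y} := (hfin z).to_subtype
    have : Finite {y // Rel G 1 U (b z) y} := (hfin (b z)).to_subtype
    have h1 := hcc2 (b z)
    rw [fromRel_val] at h1
    let e : {y // Rel G 1 U z y} ≃ {y // Rel G 1 U (b z) y} :=
      Equiv.subtypeEquivRight (fun y =>
        ⟨fun h => hE.trans (hE.symm (hb1 z)) h, fun h => hE.trans (hb1 z) h⟩)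
    have h2 := F.iso _ _ e _ _ h1
    have h3 : ((G.comap (Subtype.val : {y // Rel G 1 U (b z) y} → X)).comap e) =
        G.comap (Subtype.val : {y // Rel G 1 U z y} → X) := by
      ext x y
      rfl
    rw [h3] at h2
    refine F.congr _ _ _ _ ?_ h2
    intro x y _
    have : b x.1 = b z := (hb2 z x.1 x.2).symm
    show cc (b z) x.1 y.1 = cc (b x.1) x.1 y.1
    rw [this]

/-- the neighbourhood of the part `A` of `z`: `A` and the `G[Uᶜ]`-components coming close to it -/
def VV (G : SimpleGraph X) (R m : ℕ) (U : Set X) (z y : X) : Prop :=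
  (y ∈ U ∧ Rel G R U z y) ∨
    (y ∈ Uᶜ ∧ ∃ a y', a ∈ U ∧ Rel G R U z a ∧ wd G m a y' ∧ Rel G 1 Uᶜ y y')

theorem VV_measurable (G : SimpleGraph X) (g : ℕ → X → X) (hg : ∀ k, Measurable (g k))
    (hr : ∀ x y, G.Reachable x y ↔ ∃ k, g k x = y)
    (hm : ∀ m, MeasurableSet {p : X × X | wd G m p.1 p.2}) (R m : ℕ) {U : Set X}
    (hU : MeasurableSet U) : MeasurableSet {p : X × X | VV G R m U p.1 p.2} := by
  have h0 := measurable_Rel G g hg hr hm R hU
  have h1 := measurable_Rel G g hg hr hm 1 hU.compl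
  have h2 : {p : X × X | VV G R m U p.1 p.2} =
      ((Prod.snd ⁻¹' U) ∩ {p : X × X | Rel G R U p.1 p.2}) ∪
      ((Prod.snd ⁻¹' Uᶜ) ∩ ⋃ j : ℕ, ⋃ k : ℕ,
        (((fun p : X × X => g j p.1) ⁻¹' U) ∩
          ((fun p : X × X => (p.1, g j p.1)) ⁻¹' {p : X × X | Rel G R U p.1 p.2}) ∩
          ((fun p : X × X => (g j p.1, g k p.2)) ⁻¹' {p : X × X | wd G m p.1 p.2}) ∩
          ((fun p : X × X => (p.2, g k p.2)) ⁻¹' {p : X × X | Rel G 1 Uᶜ p.1 p.2}))) := by
    ext p
    simp only [VV, mem_ofPred_eq, mem_union, mem_inter_iff, mem_preimage, mem_iUnion]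
    constructor
    · rintro (h | ⟨h, a, y', ha, hza, hd, hy⟩)
      · exact Or.inl h
      · refine Or.inr ⟨h, ?_⟩
        obtain ⟨j, rfl⟩ := (hr _ _).1 hza.reachable
        obtain ⟨k, rfl⟩ := (hr _ _).1 hy.reachable
        exact ⟨j, k, ⟨⟨ha, hza⟩, hd⟩, hy⟩
    · rintro (h | ⟨h, j, k, ⟨⟨ha, hza⟩, hd⟩, hy⟩)
      · exact Or.inl h
      · exact Or.inr ⟨h, _, _, ha, hza, hd, hy⟩
  rw [h2]
  refine MeasurableSet.union ((measurable_snd hU).inter h0)
    ((measurable_snd hU.compl).inter (MeasurableSet.iUnion fun j => MeasurableSet.iUnion fun k => ?_))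
  refine MeasurableSet.inter (MeasurableSet.inter (MeasurableSet.inter ?_ ?_) ?_) ?_
  · exact ((hg j).comp measurable_fst) hU
  · exact (measurable_fst.prodMk ((hg j).comp measurable_fst)) h0
  · exact (((hg j).comp measurable_fst).prodMk ((hg k).comp measurable_snd)) (hm m)
  · exact (measurable_snd.prodMk ((hg k).comp measurable_snd)) h1

theorem VV_reachable {G : SimpleGraph X} {R m : ℕ} {U : Set X} {z y : X} (h : VV G R m U z y) :
    G.Reachable z y := by
  rcases h with h | ⟨_, a, y', _, hza, ⟨p, _⟩, hy⟩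
  · exact h.2.reachable
  · exact hza.reachable.trans (p.reachable.trans hy.reachable.symm)

theorem VV_finite {G : SimpleGraph X} {d : ℕ}
    (hd : ∀ x : X, (G.neighborSet x).encard = (d : ℕ∞)) {R m : ℕ} {U : Set X}
    (h0 : ∀ x, {y | Rel G R U x y}.Finite) (h1 : ∀ x, {y | Rel G 1 Uᶜ x y}.Finite) (z : X) :
    {y | VV G R m U z y}.Finite := by
  have h2 : {y | VV G R m U z y} ⊆ {y | Rel G R U z y} ∪
      ⋃ a ∈ {a | Rel G R U z a}, ⋃ y' ∈ {y' | wd G m a y'}, {y | Rel G 1 Uᶜ y' y} := by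
    rintro y (h | ⟨_, a, y', _, hza, hd, hy⟩)
    · exact Or.inl h.2
    · refine Or.inr ?_
      simp only [mem_iUnion, mem_ofPred_eq]
      exact ⟨a, hza, y', hd, (Rel_equiv G 1 Uᶜ).symm hy⟩
  refine Set.Finite.subset (Set.Finite.union (h0 z) ?_) h2
  exact Set.Finite.biUnion (h0 z) (fun a _ => Set.Finite.biUnion (finite_ball G d hd m a)
    (fun y' _ => h1 y'))

/-- the solution predicate of the second choice -/
def Sol2 (d r : ℕ) (V : Type) (l : V → V → Prop × Prop × ℕ) (c : V → V → ℕ) : Prop :=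
  PropCol d (SimpleGraph.fromRel fun x y => (l x y).1) c ∧
    ∀ x y, (SimpleGraph.fromRel fun x y => (l x y).1).Adj x y →
      (∀ a, (l a a).2.1 → ¬ wd (SimpleGraph.fromRel fun x y => (l x y).1) r a x ∧
        ¬ wd (SimpleGraph.fromRel fun x y => (l x y).1) r a y) → c x y = (l x y).2.2

theorem Sol2_iso (d r : ℕ) (V W : Type) (e : V ≃ W) (l : W → W → Prop × Prop × ℕ)
    (c : W → W → ℕ) (h : Sol2 d r W l c) :
    Sol2 d r V (fun x y => l (e x) (e y)) (fun x y => c (e x) (e y)) := by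
  have h1 : (SimpleGraph.fromRel fun x y : V => (l (e x) (e y)).1) =
      (SimpleGraph.fromRel fun x y => (l x y).1).comap e :=
    fromRel_comap (fun x y => (l x y).1) e
  unfold Sol2
  rw [h1]
  refine ⟨PropCol_equiv e h.1, ?_⟩
  intro x y hxy hA
  refine h.2 (e x) (e y) hxy ?_
  intro a ha
  have := hA (e.symm a) (by simpa using ha)
  rw [wd_equiv, wd_equiv] at this
  simpa using this

theorem good_rest {d : ℕ} (F : FinExt d) (G : SimpleGraph X)
    (hd : ∀ x : X, (G.neighborSet x).encard = (d : ℕ∞)) {R m : ℕ} {U : Set X}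
    (h0 : ∀ x, {y | Rel G R U x y}.Finite) (h1 : ∀ x, {y | Rel G 1 Uᶜ x y}.Finite)
    (c1 : X → X → ℕ)
    (hgood : ∀ z, haveI : Finite {y // Rel G 1 Uᶜ z y} := (h1 z).to_subtype
        F.Good {y // Rel G 1 Uᶜ z y} (G.comap Subtype.val) (fun x y => c1 x.1 y.1)) (z : X) :
    haveI : Finite {y // VV G R m U z y} := (VV_finite hd h0 h1 z).to_subtype
    F.Good {v : {y // VV G R m U z y} // v ∉ {v : {y // VV G R m U z y} | v.1 ∈ U}}
      ((G.comap Subtype.val).comap Subtype.val) (fun x y => c1 x.1.1 y.1.1) := by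
  have hE := Rel_equiv G 1 Uᶜ
  have : Finite {y // VV G R m U z y} := (VV_finite hd h0 h1 z).to_subtype
  apply F.union _ (Set X) _ _ (fun w => {y | Rel G 1 Uᶜ w.1.1 y})
  · intro x y hxy
    have hx : x.1.1 ∈ Uᶜ := x.2
    have hy : y.1.1 ∈ Uᶜ := y.2
    have hrel : Rel G 1 Uᶜ x.1.1 y.1.1 := Rel_of hx hy (wd_adj hxy)
    ext u
    exact ⟨fun h => hE.trans (hE.symm hrel) h, fun h => hE.trans hrel h⟩
  · intro i
    by_cases hne : ∃ w : {v : {y // VV G R m U z y} // v ∉ {v : {y // VV G R m U z y} | v.1 ∈ U}},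
        {y | Rel G 1 Uᶜ w.1.1 y} = i
    · obtain ⟨w0, rfl⟩ := hne
      have : Finite {y // Rel G 1 Uᶜ w0.1.1 y} := (h1 w0.1.1).to_subtype
      have hw0 : w0.1.1 ∈ Uᶜ := w0.2
      have key : ∀ y, Rel G 1 Uᶜ w0.1.1 y → VV G R m U z y := by
        intro y hy
        rcases w0.1.2 with h | ⟨_, a, y', ha, hza, hd', hy'⟩
        · exact absurd h.1 hw0
        · exact Or.inr ⟨Rel_mem hy hw0, a, y', ha, hza, hd', hE.trans (hE.symm hy) hy'⟩
      let e : {w : {v : {y // VV G R m U z y} // v ∉ {v : {y // VV G R m U z y} | v.1 ∈ U}} //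
          {y | Rel G 1 Uᶜ w.1.1 y} = {y | Rel G 1 Uᶜ w0.1.1 y}} ≃
          {y // Rel G 1 Uᶜ w0.1.1 y} :=
        { toFun := fun w => ⟨w.1.1.1, by
            have h2 : w.1.1.1 ∈ {y | Rel G 1 Uᶜ w.1.1 y} := hE.refl _
            rw [w.2] at h2
            exact h2⟩
          invFun := fun y => ⟨⟨⟨y.1, key y.1 y.2⟩, Rel_mem y.2 hw0⟩, by
            ext u
            exact ⟨fun h => hE.trans y.2 h, fun h => hE.trans (hE.symm y.2) h⟩⟩
          left_inv := fun w => rfl
          right_inv := fun y => rfl }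
      have h2 := F.iso _ _ e _ _ (hgood w0.1.1)
      exact h2
    · have hemp : IsEmpty {w : {v : {y // VV G R m U z y} //
          v ∉ {v : {y // VV G R m U z y} | v.1 ∈ U}} // {y | Rel G 1 Uᶜ w.1.1 y} = i} :=
        ⟨fun w => hne ⟨w.1, w.2⟩⟩
      obtain ⟨c, hc⟩ := F.ex _ ((((G.comap Subtype.val).comap Subtype.val).comap Subtype.val :
        SimpleGraph {w : {v : {y // VV G R m U z y} //
          v ∉ {v : {y // VV G R m U z y} | v.1 ∈ U}} // {y | Rel G 1 Uᶜ w.1.1 y} = i}))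
        (fun v => (hemp.false v).elim)
      exact F.congr _ _ _ _ (fun x => (hemp.false x).elim) hc

theorem second_choice {d : ℕ} (F : FinExt d) (G : SimpleGraph X)
    (hG : MeasurableSet {p : X × X | G.Adj p.1 p.2})
    (hd : ∀ x : X, (G.neighborSet x).encard = (d : ℕ∞))
    (g : ℕ → X → X) (hg : ∀ k, Measurable (g k)) (hr : ∀ x y, G.Reachable x y ↔ ∃ k, g k x = y)
    (hm : ∀ m, MeasurableSet {p : X × X | wd G m p.1 p.2}) {R : ℕ} (m : ℕ) {U : Set X}
    (hU : MeasurableSet U)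
    (h0 : ∀ x, {y | Rel G R U x y}.Finite) (h1 : ∀ x, {y | Rel G 1 Uᶜ x y}.Finite)
    (c1 : X → X → ℕ) (hc1 : Measurable fun p : X × X => c1 p.1 p.2)
    (hgood : ∀ z, haveI : Finite {y // Rel G 1 Uᶜ z y} := (h1 z).to_subtype
        F.Good {y // Rel G 1 Uᶜ z y} (G.comap Subtype.val) (fun x y => c1 x.1 y.1)) :
    ∃ cc : X → X → X → ℕ, (Measurable fun p : X × X × X => cc p.1 p.2.1 p.2.2) ∧
      ∀ z, Sol2 d F.r {y // VV G R m U z y} (fun x y => (G.Adj x.1 y.1, x.1 ∈ U, c1 x.1 y.1))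
        (fun x y => cc z x.1 y.1) := by
  have hV := VV_measurable G g hg hr hm R m hU
  have hVf := VV_finite hd h0 h1 (R := R) (m := m) (U := U)
  obtain ⟨cc, hcc, hcc2⟩ := exists_sel g hg (VV G R m U) hV hVf
    (fun z y h => (hr z y).1 (VV_reachable h)) (L := Prop × Prop × ℕ)
    (fun _ x y => (G.Adj x y, x ∈ U, c1 x y))
    (by
      rintro ⟨l1, l2, n⟩
      have hcond : {p : X × X × X | (G.Adj p.2.1 p.2.2, p.2.1 ∈ U, c1 p.2.1 p.2.2) = (l1, l2, n)} =
          {p : X × X × X | G.Adj p.2.1 p.2.2 = l1} ∩ {p : X × X × X | (p.2.1 ∈ U) = l2} ∩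
            {p : X × X × X | c1 p.2.1 p.2.2 = n} := by
        ext p
        simp only [Prod.mk.injEq, mem_ofPred_eq, mem_inter_iff]
        tauto
      rw [hcond]
      have ha : MeasurableSet {p : X × X × X | G.Adj p.2.1 p.2.2} := measurable_snd hG
      have hb : MeasurableSet {p : X × X × X | p.2.1 ∈ U} :=
        (measurable_fst.comp measurable_snd) hU
      refine (MeasurableSet.inter ?_ ?_).inter ?_
      · by_cases hl : l1
        · simpa [hl] using ha
        · have : {p : X × X × X | G.Adj p.2.1 p.2.2 = l1} =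
              {p : X × X × X | G.Adj p.2.1 p.2.2}ᶜ := by
            ext p; simp [hl]
          rw [this]; exact ha.compl
      · by_cases hl : l2
        · simpa [hl] using hb
        · have : {p : X × X × X | (p.2.1 ∈ U) = l2} =
              {p : X × X × X | p.2.1 ∈ U}ᶜ := by
            ext p; simp [hl]
          rw [this]; exact hb.compl
      · exact (hc1.comp measurable_snd) (measurableSet_singleton n))
    (fun V _ l c => Sol2 d F.r V l c)
    (fun V W _ _ e l c h => Sol2_iso d F.r V W e l c h)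
    (by
      intro z
      have : Finite {y // VV G R m U z y} := (hVf z).to_subtype
      obtain ⟨c, hc, hc'⟩ := F.ext {y // VV G R m U z y} (G.comap Subtype.val)
        (fun v => ncard_val_le G hd _ v) {v | v.1 ∈ U} (fun x y => c1 x.1 y.1)
        (good_rest F G hd h0 h1 c1 hgood z)
      refine ⟨c, ?_⟩
      unfold Sol2
      have hgr : (SimpleGraph.fromRel fun x y : {y // VV G R m U z y} => G.Adj x.1 y.1) =
        G.comap Subtype.val := fromRel_val G _
      rw [hgr]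
      exact ⟨hc, fun x y hxy hA => hc' x y hxy (fun a ha => hA a ha)⟩)
  exact ⟨cc, hcc, hcc2⟩

/-- THE BOREL PART: the finite extension theorem implies the Borel theorem -/
theorem borel_vizing {d : ℕ} (F : FinExt d) (G : SimpleGraph X)
    (hG : MeasurableSet {p : X × X | G.Adj p.1 p.2})
    (hd : ∀ x : X, (G.neighborSet x).encard = (d : ℕ∞))
    (hasi : ∀ r : ℕ, ∃ U : Fin 2 → Set X, (∀ i, MeasurableSet (U i)) ∧ (⋃ i, U i) = Set.univ ∧
      ∀ (i : Fin 2) (x : X), {y : X | Rel G r (U i) x y}.Finite) :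
    ∃ c : X × X → ℕ, Measurable c ∧
      (∀ x y : X, G.Adj x y → c (x, y) < d + 1 ∧ c (x, y) = c (y, x)) ∧
      ∀ x y z : X, G.Adj x y → G.Adj x z → y ≠ z → c (x, y) ≠ c (x, z) := by
  obtain ⟨g, hg, hr, hm⟩ := exists_gen G d hG hd
  obtain ⟨r, hrr⟩ : ∃ r, r = F.r := ⟨_, rfl⟩
  obtain ⟨R, hR⟩ : ∃ R, R = 3 * r + 10 := ⟨_, rfl⟩
  obtain ⟨U', hU', hcov, hfin'⟩ := hasi R
  obtain ⟨U, hUdef⟩ : ∃ U, U = U' 0 := ⟨_, rfl⟩
  have hU : MeasurableSet U := hUdef ▸ hU' 0
  have h0 : ∀ x, {y | Rel G R U x y}.Finite := hUdef ▸ hfin' 0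
  have hsub : Uᶜ ⊆ U' 1 := by
    intro x hx
    have hx' : x ∈ ⋃ i, U' i := by rw [hcov]; trivial
    rw [mem_iUnion] at hx'
    obtain ⟨i, hi⟩ := hx'
    fin_cases i
    · exact absurd (hUdef ▸ hi) hx
    · exact hi
  have h1 : ∀ x, {y | Rel G 1 Uᶜ x y}.Finite := by
    intro x
    refine Set.Finite.subset (hfin' 1 x) ?_
    intro y hy
    exact hy.mono (by omega) hsub
  obtain ⟨c1, hc1, hgood⟩ := first_choice F G hG hd g hg hr hm hU.compl h1
  obtain ⟨cc, hcc, hsol⟩ := second_choice F G hG hd g hg hr hm (r + 2) hU h0 h1 c1 hc1 hgood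
  have hE0 := Rel_equiv G R U
  have hE1 := Rel_equiv G 1 Uᶜ
  obtain ⟨b, hb, hb1, hb2⟩ := exists_base (Rel G R U) hE0 (measurable_Rel G g hg hr hm R hU) h0 g hg
    (fun x y h => (hr x y).1 h.reachable)
  -- near points
  have hmk : ∀ m k, MeasurableSet {x : X | g k x ∈ U ∧ wd G m (g k x) x} := by
    intro m k
    exact ((hg k) hU).inter (((hg k).prodMk measurable_id) (hm m))
  obtain ⟨f, hf, hf1⟩ := exists_first (fun (x : X) k => g k x ∈ U ∧ wd G (r + 1) (g k x) x)
    (hmk (r + 1))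
  obtain ⟨a0, ha0⟩ : ∃ a0 : X → X, a0 = fun x => g (f x) x := ⟨_, rfl⟩
  have ha0m : Measurable a0 := by
    have h2 : Measurable (fun p : X × ℕ => g p.2 p.1) := measurable_from_prod_countable_left hg
    have h3 : a0 = (fun p : X × ℕ => g p.2 p.1) ∘ (fun x => (x, f x)) := by
      rw [ha0]; rfl
    rw [h3]
    exact h2.comp (measurable_id.prodMk hf)
  obtain ⟨near, hnear⟩ : ∃ near : ℕ → X → Prop, near = fun m x => ∃ a ∈ U, wd G m a x := ⟨_, rfl⟩
  have hnm : ∀ m, MeasurableSet {x | near m x} := by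
    intro m
    have h2 : {x | near m x} = ⋃ k, {x : X | g k x ∈ U ∧ wd G m (g k x) x} := by
      ext x
      simp only [hnear, mem_ofPred_eq, mem_iUnion]
      constructor
      · rintro ⟨a, ha, hw⟩
        obtain ⟨p, _⟩ := id hw
        obtain ⟨k, rfl⟩ := (hr x a).1 p.reachable.symm
        exact ⟨k, ha, hw⟩
      · rintro ⟨k, ha, hw⟩
        exact ⟨_, ha, hw⟩
    rw [h2]
    exact MeasurableSet.iUnion (hmk m)
  have ha0s : ∀ x, near (r + 1) x → a0 x ∈ U ∧ wd G (r + 1) (a0 x) x := by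
    intro x hx
    rw [hnear] at hx
    obtain ⟨a, ha, hw⟩ := hx
    obtain ⟨p, _⟩ := id hw
    obtain ⟨k, rfl⟩ := (hr x a).1 p.reachable.symm
    have := hf1 x ⟨k, ha, hw⟩
    rw [ha0]
    exact this
  have hstep : ∀ x y, near r x → G.Adj x y → near (r + 1) y := by
    intro x y hx hxy
    rw [hnear] at hx ⊢
    obtain ⟨a, ha, hw⟩ := hx
    exact ⟨a, ha, wd_trans hw (wd_adj hxy)⟩
  have hmono : ∀ x, near r x → near (r + 1) x := by
    intro x hx
    rw [hnear] at hx ⊢
    obtain ⟨a, ha, hw⟩ := hx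
    exact ⟨a, ha, wd_mono hw (by omega)⟩
  obtain ⟨zz, hzz⟩ : ∃ zz : X → X, zz = fun x => b (a0 x) := ⟨_, rfl⟩
  have hzzm : Measurable zz := hzz ▸ hb.comp ha0m
  have hzeq : ∀ x y, near (r + 1) x → near (r + 1) y → G.Adj x y → zz x = zz y := by
    intro x y hx hy hxy
    obtain ⟨hx1, hx2⟩ := ha0s x hx
    obtain ⟨hy1, hy2⟩ := ha0s y hy
    rw [hzz]
    apply hb2
    apply Rel_of hx1 hy1
    exact wd_mono (wd_trans (wd_trans hx2 (wd_adj hxy)) (wd_symm hy2)) (by omega)
  have hin : ∀ x y, near (r + 1) x → wd G (r + 2) (a0 x) y → VV G R (r + 2) U (zz x) y := by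
    intro x y hx hy
    obtain ⟨hx1, hx2⟩ := ha0s x hx
    have hz : Rel G R U (zz x) (a0 x) := by rw [hzz]; exact hE0.symm (hb1 _)
    by_cases hyU : y ∈ U
    · exact Or.inl ⟨hyU, hE0.trans hz (Rel_of hx1 hyU (wd_mono hy (by omega)))⟩
    · exact Or.inr ⟨hyU, a0 x, y, hx1, hz, hy, hE1.refl y⟩
  -- the local solutions
  have hprop1 : ∀ z, PropCol d (G.comap (Subtype.val : {y // Rel G 1 Uᶜ z y} → X))
      (fun x y => c1 x.1 y.1) := by
    intro z
    have : Finite {y // Rel G 1 Uᶜ z y} := (h1 z).to_subtype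
    exact F.proper _ _ _ (hgood z)
  have hsol1 : ∀ z, PropCol d (G.comap (Subtype.val : {y // VV G R (r + 2) U z y} → X))
      (fun x y => cc z x.1 y.1) := by
    intro z
    have := (hsol z).1
    rwa [show (SimpleGraph.fromRel fun x y : {y // VV G R (r + 2) U z y} => G.Adj x.1 y.1) =
        G.comap Subtype.val from fromRel_val G _] at this
  have hsol2 : ∀ z (x y : {y // VV G R (r + 2) U z y}), G.Adj x.1 y.1 → ¬ near r x.1 →
      ¬ near r y.1 → cc z x.1 y.1 = c1 x.1 y.1 := by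
    intro z x y hxy hx hy
    have h2 := (hsol z).2
    rw [show (SimpleGraph.fromRel fun x y : {y // VV G R (r + 2) U z y} => G.Adj x.1 y.1) =
        G.comap Subtype.val from fromRel_val G _] at h2
    refine h2 x y hxy ?_
    intro a ha
    rw [hnear] at hx hy
    constructor
    · intro hw
      exact hx ⟨a.1, ha, hrr ▸ wd_val hw⟩
    · intro hw
      exact hy ⟨a.1, ha, hrr ▸ wd_val hw⟩
  classical
  obtain ⟨c, hc⟩ : ∃ c : X × X → ℕ, c = fun p =>
    if near r p.1 ∨ near r p.2 then cc (zz p.1) p.1 p.2 else c1 p.1 p.2 := ⟨_, rfl⟩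
  have hcN : ∀ x y, near r x ∨ near r y → c (x, y) = cc (zz x) x y := by
    intro x y h; rw [hc]; exact if_pos h
  have hcF : ∀ x y, ¬ near r x → ¬ near r y → c (x, y) = c1 x y := by
    intro x y h h'; rw [hc]; exact if_neg (not_or.2 ⟨h, h'⟩)
  have hbig : ∀ x y, G.Adj x y → (near r x ∨ near r y) → near (r + 1) x ∧ near (r + 1) y := by
    intro x y hxy h
    rcases h with h | h
    · exact ⟨hmono x h, hstep x y h hxy⟩
    · exact ⟨hstep y x h hxy.symm, hmono y h⟩
  have hVx : ∀ x, near (r + 1) x → VV G R (r + 2) U (zz x) x := fun x hx =>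
    hin x x hx (wd_mono (ha0s x hx).2 (by omega))
  have hVy : ∀ x y, near (r + 1) x → G.Adj x y → VV G R (r + 2) U (zz x) y := fun x y hx hxy =>
    hin x y hx (wd_mono (wd_trans (ha0s x hx).2 (wd_adj hxy)) (by omega))
  have hnU : ∀ x, ¬ near r x → x ∈ Uᶜ := by
    intro x hx hxU
    apply hx
    rw [hnear]
    exact ⟨x, hxU, wd_refl G r x⟩
  have hrel1 : ∀ x y, ¬ near r x → ¬ near r y → G.Adj x y → Rel G 1 Uᶜ x y := by
    intro x y hx hy hxy
    exact Rel_of (hnU x hx) (hnU y hy) (wd_adj hxy)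
  refine ⟨c, ?_, ?_, ?_⟩
  · rw [hc]
    refine Measurable.ite ?_ ?_ hc1
    · exact (measurable_fst (hnm r)).union (measurable_snd (hnm r))
    · have h3 : (fun p : X × X => cc (zz p.1) p.1 p.2) =
          (fun p : X × X × X => cc p.1 p.2.1 p.2.2) ∘ (fun p : X × X => (zz p.1, p.1, p.2)) := rfl
      rw [h3]
      exact hcc.comp ((hzzm.comp measurable_fst).prodMk (measurable_fst.prodMk measurable_snd))
  · intro x y hxy
    by_cases h : near r x ∨ near r y
    · obtain ⟨hx, hy⟩ := hbig x y hxy h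
      rw [hcN x y h, hcN y x h.symm, ← hzeq x y hx hy hxy]
      exact (hsol1 (zz x)).1 ⟨x, hVx x hx⟩ ⟨y, hVy x y hx hxy⟩ hxy
    · rw [not_or] at h
      rw [hcF x y h.1 h.2, hcF y x h.2 h.1]
      exact (hprop1 x).1 ⟨x, hE1.refl x⟩ ⟨y, hrel1 x y h.1 h.2 hxy⟩ hxy
  · intro x y w hxy hxw hyw
    by_cases hy : near r x ∨ near r y
    · obtain ⟨hx1, _⟩ := hbig x y hxy hy
      have hP := (hsol1 (zz x)).2 ⟨x, hVx x hx1⟩ ⟨y, hVy x y hx1 hxy⟩ ⟨w, hVy x w hx1 hxw⟩ hxy hxw
        (fun h => hyw (congrArg Subtype.val h))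
      by_cases hw : near r x ∨ near r w
      · rw [hcN x y hy, hcN x w hw]
        exact hP
      · rw [not_or] at hw
        rw [hcN x y hy, hcF x w hw.1 hw.2,
          ← hsol2 (zz x) ⟨x, hVx x hx1⟩ ⟨w, hVy x w hx1 hxw⟩ hxw hw.1 hw.2]
        exact hP
    · rw [not_or] at hy
      by_cases hw : near r x ∨ near r w
      · obtain ⟨hx1, _⟩ := hbig x w hxw hw
        have hP := (hsol1 (zz x)).2 ⟨x, hVx x hx1⟩ ⟨y, hVy x y hx1 hxy⟩ ⟨w, hVy x w hx1 hxw⟩ hxy hxw
          (fun h => hyw (congrArg Subtype.val h))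
        rw [hcN x w hw, hcF x y hy.1 hy.2,
          ← hsol2 (zz x) ⟨x, hVx x hx1⟩ ⟨y, hVy x y hx1 hxy⟩ hxy hy.1 hy.2]
        exact hP
      · rw [not_or] at hw
        rw [hcF x y hy.1 hy.2, hcF x w hw.1 hw.2]
        exact (hprop1 x).2 ⟨x, hE1.refl x⟩ ⟨y, hrel1 x y hy.1 hy.2 hxy⟩
          ⟨w, hrel1 x w hw.1 hw.2 hxw⟩ hxy hxw (fun h => hyw (congrArg Subtype.val h))

end MP405B
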