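import Mathlib
import Pool.Agent.Lib.MP_405d56_lc.B.Main

/-! # The frozen statement from the finite extension theorem -/

set_option autoImplicit false

namespace MP405B

theorem final_of (hF : ∀ d, 1 ≤ d → Nonempty (FinExt d)) (X : Type) [MeasurableSpace X]
    [StandardBorelSpace X] (G : SimpleGraph X) (d : ℕ)
    (hG : MeasurableSet {p : X × X | G.Adj p.1 p.2})
    (hd : ∀ x : X, (G.neighborSet x).encard = (d : ℕ∞))
    (hasi : ∀ r : ℕ, ∃ U : Fin 2 → Set X, (∀ i, MeasurableSet (U i)) ∧ (⋃ i, U i) = Set.univ ∧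
        ∀ (i : Fin 2) (x : X),
          {y : X | (SimpleGraph.fromRel (fun a b : X =>
              a ∈ U i ∧ b ∈ U i ∧ ∃ p : G.Walk a b, p.length ≤ r)).Reachable x y}.Finite) :
      ∃ c : X × X → ℕ, Measurable c ∧
        (∀ x y : X, G.Adj x y → c (x, y) < d + 1 ∧ c (x, y) = c (y, x)) ∧
        ∀ x y z : X, G.Adj x y → G.Adj x z → y ≠ z → c (x, y) ≠ c (x, z) := by
  rcases Nat.eq_zero_or_pos d with h0 | h0
  · subst h0
    have hno : ∀ x y, ¬ G.Adj x y := by
      intro x y h
      have h1 : G.neighborSet x = ∅ := by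
        rw [← Set.encard_eq_zero, hd x]; rfl
      have h2 : y ∈ G.neighborSet x := h
      rw [h1] at h2
      exact h2
    exact ⟨fun _ => 0, measurable_const, fun x y h => (hno x y h).elim,
      fun x y z h => (hno x y h).elim⟩
  · obtain ⟨F⟩ := hF d h0
    exact borel_vizing F G hG hd hasi

end MP405B
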